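import Mathlib
import Pool.Agent.TP975.LR.Ls2

/-!
Normality of the Thue-Morse sequence along almost all polynomials, for words of length at most the degree.
-/

set_option autoImplicit false

namespace Pool.Agent.Results.MP_8fac0f_nt.AlmostAllPolynomials

open Finset

/-- the Thue-Morse sequence: the sum of the binary digits mod 2 -/
def t (n : ℕ) : ℕ := (Nat.digits 2 n).sum % 2

/-- the value at `x` of the polynomial with the coefficients `a 0, ..., a d` -/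
def value {d : ℕ} (a : Fin (d + 1) → ℤ) (x : ℤ) : ℤ := ∑ c, a c * x ^ (c : ℕ)

/-- the polynomials of degree at most `d` with coefficients in `[-H, H]` -/
noncomputable def box (d H : ℕ) : Finset (Fin (d + 1) → ℤ) := Fintype.piFinset fun _ => Icc (-(H : ℤ)) H

/-- the number of `n = r + q u`, `1 ≤ u ≤ N`, with `t(|f(n + j)|) = w j` for `0 ≤ j < k` -/
noncomputable def occ {d k : ℕ} (w : Fin k → ℕ) (f : Fin (d + 1) → ℤ) (q r N : ℕ) : ℕ :=
  ((Icc 1 N).filter (fun u => ∀ j : Fin k, t (value f (((r + q * u : ℕ) : ℤ) + ((j : ℕ) : ℤ))).natAbs = w j)).card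

open Classical in
/-- Let `k, m ≥ 1` and `m k ≤ d`. Almost all polynomials `f` of degree at most `d` satisfy
`|occ w f q r N - N / 2 ^ k| ^ (2 m) ≤ q (r + q N) N ^ (m - 1) log ^ ε H` for ALL words `w` of length `k` and ALL `q ≥ 1`, `r ≥ 0`,
`N ≥ 1` with `r + q N ≤ log ^ A H`. -/
theorem result (d A k m : ℕ) (hk : 1 ≤ k) (hm : 1 ≤ m) (hkm : m * k ≤ d) (ε : ℝ) (hε : 0 < ε) :
    ∃ η : ℝ, 0 < η ∧ ∃ H₀ : ℕ, ∀ H : ℕ, H₀ ≤ H →
    (((box d H).filter (fun f => ∃ w : Fin k → ℕ, (∀ j, w j < 2) ∧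
      ∃ q r N : ℕ, 1 ≤ q ∧ 1 ≤ N ∧ ((r + q * N : ℕ) : ℝ) ≤ Real.log H ^ A ∧
      (q : ℝ) * ((r + q * N : ℕ) : ℝ) * (N : ℝ) ^ (m - 1) * Real.log H ^ ε <
        |(occ w f q r N : ℝ) - N / 2 ^ k| ^ (2 * m))).card : ℝ) ≤ (box d H).card / Real.log H ^ η := by
  obtain ⟨k, rfl⟩ : ∃ k', k = k' + 1 := ⟨k - 1, by omega⟩
  obtain ⟨η, hη, H0, h0⟩ := Pool.Agent.TP975.LR.words d A m k hm hkm ε hε
  refine ⟨η, hη, H0, fun H hH => ?_⟩
  obtain ⟨Bad, _, hB, hall⟩ := h0 H hH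
  refine le_trans ?_ hB
  have hsub : (box d H).filter (fun f => ∃ w : Fin (k + 1) → ℕ, (∀ j, w j < 2) ∧
      ∃ q r N : ℕ, 1 ≤ q ∧ 1 ≤ N ∧ ((r + q * N : ℕ) : ℝ) ≤ Real.log H ^ A ∧
      (q : ℝ) * ((r + q * N : ℕ) : ℝ) * (N : ℝ) ^ (m - 1) * Real.log H ^ ε <
        |(occ w f q r N : ℝ) - N / 2 ^ (k + 1)| ^ (2 * m)) ⊆ Bad := by
    intro f hf
    rw [mem_filter] at hf
    obtain ⟨hf1, w, hw, q, r, N, hq, hN, hX, hlt⟩ := hf
    by_contra hbad
    apply absurd hlt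
    rw [not_lt]
    exact hall f hf1 hbad w hw q r N hq hN hX
  exact_mod_cast card_le_card hsub

end Pool.Agent.Results.MP_8fac0f_nt.AlmostAllPolynomials
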